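import Pool.Agent.Q232.ST.Gen

/-!
# A semi-translation plane with a ternary field which is not linear over its Baer subplane

There is a (countable) semi-translation plane whose Baer subplane is the rational affine plane, and a Hall coordinatization with
respect to a quadrangle `o, e, u, v` of the Baer subplane, `u` and `v` at infinity, whose ternary field `T` does not satisfy
`x · s ∘ y = x s + y` for all `x`, `y` in `T` and all `s` in the coordinate set of the Baer subplane. So the `Q`-linearity of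
these ternary fields is not automatic.

The points are the pairs `(z, v)` of elements of `ℚ²`; the real points are those with `v = 0`. The lines with slopes in
`ℚ ∪ {∞}` form a net which is given by a formula, with a correction term which makes it nonlinear; the other lines are the
translates `z = σ_j(v) + g` of the graphs of a sequence of functions, which is constructed generically.
-/

set_option autoImplicit false

namespace Pool.Agent.Results.MP_da03c4_co.NotLinear

/-- The points `a 0, a 1, a 2, a 3` form a quadrangle: they are distinct and no three of them are on a line. -/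
def Quadrangle {P L : Type} (I : P → L → Prop) (a : Fin 4 → P) : Prop :=
  Function.Injective a ∧ ∀ i j k, i ≠ j → i ≠ k → j ≠ k → ∀ l, ¬ (I (a i) l ∧ I (a j) l ∧ I (a k) l)

/-- Points `P` and lines `L` with the incidence relation `I` form a projective plane. -/
structure IsPlane {P L : Type} (I : P → L → Prop) : Prop where
  join : ∀ p q, p ≠ q → ∃! l, I p l ∧ I q l
  meet : ∀ l m, l ≠ m → ∃! p, I p l ∧ I p m
  quad : ∃ a, Quadrangle I a

/-- The collineation `(f, g)` is an elation with axis `W` or the identity: it fixes all points of `W`, and all lines through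
some point `c` of `W`. -/
def IsElation {P L : Type} (I : P → L → Prop) (W : L) (f : P ≃ P) (g : L ≃ L) : Prop :=
  (∀ p l, I (f p) (g l) ↔ I p l) ∧ (∀ p, I p W → f p = p) ∧ ∃ c, I c W ∧ ∀ l, I c l → g l = l

/-- The affine plane obtained from the projective plane by deleting the line `W` is a translation plane: its translations (the
elations with axis `W`) are transitive on its points. -/
def IsTranslationPlane {P L : Type} (I : P → L → Prop) (W : L) : Prop :=
  ∀ p q, ¬ I p W → ¬ I q W → ∃ f g, IsElation I W f g ∧ f p = q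

/-- The incidence relation between the points in `A` and the lines in `B`. -/
def sub {P L : Type} (I : P → L → Prop) (A : Set P) (B : Set L) (p : A) (l : B) : Prop := I p l

/-- The affine plane obtained from the projective plane `(P, L, I)` by deleting `W` is a semi-translation plane with respect
to the subplane with points `A` and lines `B`, which contains `W`: the subplane is a Baer subplane, it is a translation plane
(after deleting `W`), and each of its translations is induced by a translation of the whole plane. -/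
structure IsSemiTranslation {P L : Type} (I : P → L → Prop) (W : L) (A : Set P) (B : Set L) (hW : W ∈ B) : Prop where
  plane : IsPlane I
  subplane : IsPlane (sub I A B)
  point_mem : ∀ p, ∃ l ∈ B, I p l
  line_mem : ∀ l, ∃ p ∈ A, I p l
  translation : IsTranslationPlane (sub I A B) ⟨W, hW⟩
  extend : ∀ f g, IsElation (sub I A B) ⟨W, hW⟩ f g → ∃ F G, IsElation I W F G ∧ ∀ p : A, F p = f p

/-- Hall coordinates with respect to `o, e, u, v`: `T` is the set of coordinates, with elements `zero`, `one`, the point with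
coordinates `(x, y)` is `pt x y`, and `F x a b = x · a ∘ b` is the ternary operation. The points with the same first
coordinate are on a line through `v`, those with the same second coordinate on a line through `u`, the points `(t, t)` are on
the line `oe`, and `y = F x a b` if and only if `(x, y)` is on the line through `(0, b)` which meets `W` in the same point
as the line through `(0, 0)` and `(1, a)`. -/
structure IsHall {P L : Type} (I : P → L → Prop) (W : L) (o e u v : P) (T : Type) (zero one : T) (pt : T → T → P)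
    (F : T → T → T → T) : Prop where
  inj : ∀ x y x' y', pt x y = pt x' y' → x = x' ∧ y = y'
  range : ∀ p, (∃ x y, pt x y = p) ↔ ¬ I p W
  origin : pt zero zero = o
  unit : pt one one = e
  diagonal : ∀ l, I o l → I e l → ∀ t, I (pt t t) l
  vertical : ∀ l, I v l → ∀ x y y', I (pt x y) l → I (pt x y') l
  horizontal : ∀ l, I u l → ∀ x x' y, I (pt x y) l → I (pt x' y) l
  op : ∀ x a b y, F x a b = y ↔
    ∃ m c l, I (pt zero zero) m ∧ I (pt one a) m ∧ I c m ∧ I c W ∧ I c l ∧ I (pt zero b) l ∧ I (pt x y) l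

section proofs

open Pool.Agent.Q232.ST

/-- the points -/
inductive Pt where
  | aff (z v : V) : Pt
  | dir (s : Option ℚ) : Pt
  | ext (j : ℕ) : Pt

/-- the lines -/
inductive Ln where
  | net (s : Option ℚ) (b c : ℚ) : Ln
  | graph (j : ℕ) (g : V) : Ln
  | inf : Ln

open Pt Ln

/-- incidence -/
def Inc (σ : ℕ → V → V) : Pt → Ln → Prop
  | aff z v, net s b c0 => L s v = b ∧ c s v z = c0
  | aff z v, graph j g => z = σ j v + g
  | aff _ _, inf => False
  | dir s, net s' _ _ => s = s'
  | dir _, graph _ _ => False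
  | dir _, inf => True
  | ext _, net _ _ _ => False
  | ext j, graph i _ => j = i
  | ext _, inf => True

/-- the properties of the generic family -/
structure Fam (σ : ℕ → V → V) : Prop where
  a1 : ∀ i j, i ≠ j → ∀ v v', σ i v - σ j v = σ i v' - σ j v' → v = v'
  a2 : ∀ i j, i ≠ j → ∀ g, ∃ v, σ i v - σ j v = g
  a3 : ∀ v v', v ≠ v' → ∀ z z', (∀ s, L s v = L s v' → c s v z ≠ c s v' z') → ∃ j, σ j v - σ j v' = z - z'
  a4 : ∀ j v v', v ≠ v' → ∀ s, L s v = L s v' → c s v (σ j v) ≠ c s v' (σ j v')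
  a5 : ∀ j s b0 c0, ∃ v, L s v = b0 ∧ c s v (σ j v) = c0

theorem c_add (s : Option ℚ) (v a g : V) : c s v (a + g) = c s v a + L s g := by
  unfold c
  rw [L_add]
  ring

theorem c_zero (s : Option ℚ) (z : V) : c s 0 z = L s z := by
  unfold c
  cases s <;> simp [h]

theorem L_surj {s s' : Option ℚ} (hs : s ≠ s') (α β : ℚ) : ∃ x : V, L s x = α ∧ L s' x = β := by
  rcases s with _ | s <;> rcases s' with _ | s'
  · exact absurd rfl hs
  · exact ⟨(α, β + s' * α), rfl, by simp [L]⟩
  · exact ⟨(β, α + s * β), by simp [L], rfl⟩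
  · have hne : s' - s ≠ 0 := fun h0 => hs (by rw [sub_eq_zero.1 h0])
    refine ⟨((α - β) / (s' - s), α + s * ((α - β) / (s' - s))), by simp [L], ?_⟩
    simp only [L]
    have : (s' - s) * ((α - β) / (s' - s)) = α - β := mul_div_cancel₀ _ hne
    linarith

variable {σ : ℕ → V → V}

theorem join_ex (hσ : Fam σ) (p q : Pt) (hpq : p ≠ q) : ∃ l, Inc σ p l ∧ Inc σ q l := by
  rcases p with ⟨z, v⟩ | s | j <;> rcases q with ⟨z', v'⟩ | s' | j'
  · by_cases hv : v = v'
    · subst hv
      obtain ⟨s, hs⟩ := exists_L (z - z')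
      rw [L_sub] at hs
      refine ⟨net s (L s v) (c s v z), ⟨rfl, rfl⟩, rfl, ?_⟩
      unfold c
      linarith
    · by_cases hn : ∃ s, L s v = L s v' ∧ c s v z = c s v' z'
      · obtain ⟨s, h1, h2⟩ := hn
        exact ⟨net s (L s v) (c s v z), ⟨rfl, rfl⟩, h1.symm, h2.symm⟩
      · push Not at hn
        obtain ⟨j, hj⟩ := hσ.a3 v v' hv z z' hn
        refine ⟨graph j (z - σ j v), ?_, ?_⟩
        · show z = σ j v + (z - σ j v)
          abel
        · show z' = σ j v' + (z - σ j v)
          have h1 : z = σ j v - σ j v' + z' := by rw [hj]; abel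
          rw [h1]
          abel
  · exact ⟨net s' (L s' v) (c s' v z), ⟨rfl, rfl⟩, rfl⟩
  · refine ⟨graph j' (z - σ j' v), ?_, rfl⟩
    show z = σ j' v + (z - σ j' v)
    abel
  · exact ⟨net s (L s v') (c s v' z'), rfl, ⟨rfl, rfl⟩⟩
  · exact ⟨inf, trivial, trivial⟩
  · exact ⟨inf, trivial, trivial⟩
  · refine ⟨graph j (z' - σ j v'), rfl, ?_⟩
    show z' = σ j v' + (z' - σ j v')
    abel
  · exact ⟨inf, trivial, trivial⟩
  · exact ⟨inf, trivial, trivial⟩

theorem meet_ex (hσ : Fam σ) (l m : Ln) (hlm : l ≠ m) : ∃ p, Inc σ p l ∧ Inc σ p m := by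
  have key1 : ∀ s b c0 j g, ∃ p, Inc σ p (net s b c0) ∧ Inc σ p (graph j g) := by
    intro s b c0 j g
    obtain ⟨v, h1, h2⟩ := hσ.a5 j s b (c0 - L s g)
    refine ⟨aff (σ j v + g) v, ⟨h1, ?_⟩, rfl⟩
    rw [c_add, h2]
    ring
  rcases l with ⟨s, b, c0⟩ | ⟨j, g⟩ | _ <;> rcases m with ⟨s', b', c0'⟩ | ⟨i, g'⟩ | _
  · by_cases hs : s = s'
    · exact ⟨dir s, rfl, hs⟩
    · obtain ⟨v, h1, h2⟩ := L_surj hs b b'
      obtain ⟨z, h3, h4⟩ := L_surj hs (c0 + h s v) (c0' + h s' v)
      refine ⟨aff z v, ⟨h1, ?_⟩, h2, ?_⟩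
      · unfold c; rw [h3]; ring
      · unfold c; rw [h4]; ring
  · exact key1 _ _ _ _ _
  · exact ⟨dir s, rfl, trivial⟩
  · obtain ⟨p, h1, h2⟩ := key1 s' b' c0' j g
    exact ⟨p, h2, h1⟩
  · by_cases hij : i = j
    · exact ⟨ext j, rfl, hij.symm⟩
    · obtain ⟨v, hv⟩ := hσ.a2 i j hij (g - g')
      refine ⟨aff (σ j v + g) v, rfl, ?_⟩
      show σ j v + g = σ i v + g'
      have h1 : σ i v = g - g' + σ j v := by rw [← hv]; abel
      rw [h1]
      abel
  · exact ⟨ext j, rfl, trivial⟩
  · exact ⟨dir s', trivial, rfl⟩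
  · exact ⟨ext i, trivial, rfl⟩
  · exact absurd rfl hlm

theorem uniq_net_graph (hσ : Fam σ) {p q : Pt} (hpq : p ≠ q) {s b c0 j g} (h1 : Inc σ p (net s b c0))
    (h2 : Inc σ q (net s b c0)) (h3 : Inc σ p (graph j g)) (h4 : Inc σ q (graph j g)) : False := by
  rcases p with ⟨z, v⟩ | t | k
  · rcases q with ⟨z', v'⟩ | t' | k'
    · obtain ⟨e1, e2⟩ := h1
      obtain ⟨e3, e4⟩ := h2
      have e5 : z = σ j v + g := h3
      have e6 : z' = σ j v' + g := h4
      by_cases hv : v = v'
      · subst hv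
        exact hpq (by rw [e5, e6])
      · refine hσ.a4 j v v' hv s (e1.trans e3.symm) ?_
        rw [e5, c_add] at e2
        rw [e6, c_add] at e4
        linarith
    · exact h4
    · exact h2
  · exact h3
  · exact h1

theorem uniq (hσ : Fam σ) {p q : Pt} (hpq : p ≠ q) {l m : Ln} (h1 : Inc σ p l) (h2 : Inc σ q l) (h3 : Inc σ p m)
    (h4 : Inc σ q m) : l = m := by
  have inf_net : ∀ {s b c0}, Inc σ p (net s b c0) → Inc σ q (net s b c0) → Inc σ p inf → Inc σ q inf → False := by
    intro s b c0 e1 e2 e3 e4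
    rcases p with ⟨z, v⟩ | t | k
    · exact e3
    · rcases q with ⟨z', v'⟩ | t' | k'
      · exact e4
      · have e5 : t = s := e1
        have e6 : t' = s := e2
        exact hpq (by rw [e5, e6])
      · exact e2
    · exact e1
  have inf_graph : ∀ {j g}, Inc σ p (graph j g) → Inc σ q (graph j g) → Inc σ p inf → Inc σ q inf → False := by
    intro j g e1 e2 e3 e4
    rcases p with ⟨z, v⟩ | t | k
    · exact e3
    · exact e1
    · rcases q with ⟨z', v'⟩ | t' | k'
      · exact e4
      · exact e2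
      · have e5 : k = j := e1
        have e6 : k' = j := e2
        exact hpq (by rw [e5, e6])
  rcases l with ⟨s, b, c0⟩ | ⟨j, g⟩ | _ <;> rcases m with ⟨s', b', c0'⟩ | ⟨i, g'⟩ | _
  · rcases p with ⟨z, v⟩ | t | k
    · obtain ⟨e1, e2⟩ := h1
      obtain ⟨e3, e4⟩ := h3
      have hs : s = s' := by
        rcases q with ⟨z', v'⟩ | t' | k'
        · obtain ⟨e5, e6⟩ := h2
          obtain ⟨e7, e8⟩ := h4
          by_contra hs
          by_cases hv : v = v'
          · subst hv
            refine hpq ?_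
            have h5 : z - z' = 0 := by
              refine L_inj hs ?_ ?_
              · rw [L_sub]; unfold c at e2 e6; linarith
              · rw [L_sub]; unfold c at e4 e8; linarith
            rw [sub_eq_zero.1 h5]
          · refine hv (sub_eq_zero.1 (L_inj hs ?_ ?_))
            · rw [L_sub, e1, e5, sub_self]
            · rw [L_sub, e3, e7, sub_self]
        · exact (show t' = s from h2).symm.trans h4
        · exact h2.elim
      subst hs
      rw [← e1, ← e2, ← e3, ← e4]
    · rcases q with ⟨z', v'⟩ | t' | k'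
      · have e0 : s = s' := (show t = s from h1).symm.trans h3
        obtain ⟨e1, e2⟩ := h2
        obtain ⟨e3, e4⟩ := h4
        subst e0
        rw [← e1, ← e2, ← e3, ← e4]
      · have e5 : t = s := h1
        have e6 : t' = s := h2
        exact absurd (by rw [e5, e6]) hpq
      · exact h2.elim
    · exact h1.elim
  · exact (uniq_net_graph hσ hpq h1 h2 h3 h4).elim
  · exact (inf_net h1 h2 h3 h4).elim
  · exact (uniq_net_graph hσ hpq h3 h4 h1 h2).elim
  · rcases p with ⟨z, v⟩ | t | k
    · have e1 : z = σ j v + g := h1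
      have e3 : z = σ i v + g' := h3
      have hji : j = i := by
        rcases q with ⟨z', v'⟩ | t' | k'
        · have e2 : z' = σ j v' + g := h2
          have e4 : z' = σ i v' + g' := h4
          by_contra hji
          have hv : v = v' := by
            refine hσ.a1 j i hji v v' ?_
            have e5 : σ j v = z - g := by rw [e1]; abel
            have e6 : σ i v = z - g' := by rw [e3]; abel
            have e7 : σ j v' = z' - g := by rw [e2]; abel
            have e8 : σ i v' = z' - g' := by rw [e4]; abel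
            rw [e5, e6, e7, e8]
            abel
          subst hv
          exact hpq (by rw [e1, e2])
        · exact h2.elim
        · exact (show k' = j from h2).symm.trans h4
      subst hji
      have : g = g' := add_left_cancel (e1.symm.trans e3)
      rw [this]
    · exact h1.elim
    · rcases q with ⟨z', v'⟩ | t' | k'
      · have e0 : j = i := (show k = j from h1).symm.trans h3
        have e2 : z' = σ j v' + g := h2
        have e4 : z' = σ i v' + g' := h4
        subst e0
        have : g = g' := add_left_cancel (e2.symm.trans e4)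
        rw [this]
      · exact h2.elim
      · have e5 : k = j := h1
        have e6 : k' = j := h2
        exact absurd (by rw [e5, e6]) hpq
  · exact (inf_graph h1 h2 h3 h4).elim
  · exact (inf_net h3 h4 h1 h2).elim
  · exact (inf_graph h3 h4 h1 h2).elim
  · rfl

/-- the real points -/
def RP : Set Pt := {p | match p with
  | aff _ v => v = 0
  | dir _ => True
  | ext _ => False}

/-- the real lines -/
def RL : Set Ln := {l | match l with
  | net _ b _ => b = 0
  | graph _ _ => False
  | inf => True}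

theorem line_real {p q : Pt} (hpq : p ≠ q) (hp : p ∈ RP) (hq : q ∈ RP) {l : Ln} (h1 : Inc σ p l) (h2 : Inc σ q l) :
    l ∈ RL := by
  rcases l with ⟨s, b, c0⟩ | ⟨j, g⟩ | _
  · show b = 0
    rcases p with ⟨z, v⟩ | t | k
    · have hv : v = 0 := hp
      rw [← h1.1, hv, L_zero]
    · rcases q with ⟨z', v'⟩ | t' | k'
      · have hv : v' = 0 := hq
        rw [← h2.1, hv, L_zero]
      · have e5 : t = s := h1
        have e6 : t' = s := h2
        exact absurd (by rw [e5, e6]) hpq
      · exact hq.elim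
    · exact hp.elim
  · exfalso
    rcases p with ⟨z, v⟩ | t | k
    · rcases q with ⟨z', v'⟩ | t' | k'
      · have hv : v = 0 := hp
        have hv' : v' = 0 := hq
        have e1 : z = σ j v + g := h1
        have e2 : z' = σ j v' + g := h2
        exact hpq (by rw [e1, e2, hv, hv'])
      · exact h2
      · exact hq
    · exact h1
    · exact hp
  · exact trivial

theorem point_real {l m : Ln} (hlm : l ≠ m) (hl : l ∈ RL) (hm : m ∈ RL) {p : Pt} (h1 : Inc σ p l) (h2 : Inc σ p m) :
    p ∈ RP := by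
  rcases p with ⟨z, v⟩ | t | k
  · show v = 0
    rcases l with ⟨s, b, c0⟩ | ⟨j, g⟩ | _
    · rcases m with ⟨s', b', c0'⟩ | ⟨i, g'⟩ | _
      · obtain ⟨e1, e2⟩ := h1
        obtain ⟨e3, e4⟩ := h2
        have hb : b = 0 := hl
        have hb' : b' = 0 := hm
        by_cases hs : s = s'
        · subst hs
          exact absurd (by rw [← e2, ← e4, hb, hb']) hlm
        · exact L_inj hs (e1.trans hb) (e3.trans hb')
      · exact hm.elim
      · exact h2.elim
    · exact hl.elim
    · exact h1.elim
  · exact trivial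
  · rcases l with ⟨s, b, c0⟩ | ⟨j, g⟩ | _
    · exact h1.elim
    · exact hl.elim
    · rcases m with ⟨s', b', c0'⟩ | ⟨i, g'⟩ | _
      · exact h2.elim
      · exact hm.elim
      · exact absurd rfl hlm

/-- the quadrangle `o, e, u, v` -/
def qd : Fin 4 → Pt := ![aff 0 0, aff (1, 1) 0, dir (some 0), dir none]

theorem qd_inj : Function.Injective qd := by
  intro i j hij
  fin_cases i <;> fin_cases j <;> simp [qd, Prod.ext_iff] at hij ⊢

theorem qd_lines (i j k : Fin 4) (hij : i ≠ j) (hik : i ≠ k) (hjk : j ≠ k) (l : Ln) :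
    ¬ (Inc σ (qd i) l ∧ Inc σ (qd j) l ∧ Inc σ (qd k) l) := by
  rintro ⟨h1, h2, h3⟩
  have a012 : ∀ l, Inc σ (aff 0 0) l → Inc σ (aff (1, 1) 0) l → Inc σ (dir (some 0)) l → False := by
    intro l e1 e2 e3
    rcases l with ⟨s, b, c0⟩ | ⟨j, g⟩ | _
    · have e4 : some 0 = s := e3
      subst e4
      have := e1.2.trans e2.2.symm
      simp [c, h, L] at this
    · exact e3
    · exact e1
  have a013 : ∀ l, Inc σ (aff 0 0) l → Inc σ (aff (1, 1) 0) l → Inc σ (dir none) l → False := by
    intro l e1 e2 e3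
    rcases l with ⟨s, b, c0⟩ | ⟨j, g⟩ | _
    · have e4 : none = s := e3
      subst e4
      have := e1.2.trans e2.2.symm
      simp [c, h, L] at this
    · exact e3
    · exact e1
  have a23 : ∀ z v l, Inc σ (aff z v) l → Inc σ (dir (some 0)) l → Inc σ (dir none) l → False := by
    intro z v l e1 e2 e3
    rcases l with ⟨s, b, c0⟩ | ⟨j, g⟩ | _
    · have e4 : some 0 = s := e2
      have e5 : none = s := e3
      rw [← e4] at e5
      simp at e5
    · exact e3
    · exact e1
  fin_cases i <;> fin_cases j <;> first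
    | exact absurd rfl hij
    | (fin_cases k <;> first
        | exact absurd rfl hik
        | exact absurd rfl hjk
        | exact a012 l h1 h2 h3
        | exact a012 l h1 h3 h2
        | exact a012 l h2 h1 h3
        | exact a012 l h3 h1 h2
        | exact a012 l h2 h3 h1
        | exact a012 l h3 h2 h1
        | exact a013 l h1 h2 h3
        | exact a013 l h1 h3 h2
        | exact a013 l h2 h1 h3
        | exact a013 l h3 h1 h2
        | exact a013 l h2 h3 h1
        | exact a013 l h3 h2 h1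
        | exact a23 _ _ l h1 h2 h3
        | exact a23 _ _ l h1 h3 h2
        | exact a23 _ _ l h2 h1 h3
        | exact a23 _ _ l h3 h1 h2
        | exact a23 _ _ l h2 h3 h1
        | exact a23 _ _ l h3 h2 h1)

theorem qd_real (i : Fin 4) : qd i ∈ RP := by
  fin_cases i
  · exact (rfl : (0 : V) = 0)
  · exact (rfl : (0 : V) = 0)
  · exact trivial
  · exact trivial

theorem isPlane (hσ : Fam σ) : IsPlane (Inc σ) where
  join := by
    intro p q hpq
    obtain ⟨l, h1, h2⟩ := join_ex hσ p q hpq
    exact ⟨l, ⟨h1, h2⟩, fun m hm => uniq hσ hpq hm.1 hm.2 h1 h2⟩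
  meet := by
    intro l m hlm
    obtain ⟨p, h1, h2⟩ := meet_ex hσ l m hlm
    refine ⟨p, ⟨h1, h2⟩, fun q hq => ?_⟩
    by_contra hne
    exact hlm (uniq hσ hne hq.1 h1 hq.2 h2)
  quad := ⟨qd, qd_inj, qd_lines⟩

theorem isPlane_sub (hσ : Fam σ) : IsPlane (sub (Inc σ) RP RL) where
  join := by
    rintro ⟨p, hp⟩ ⟨q, hq⟩ hpq
    have hpq' : p ≠ q := fun he => hpq (Subtype.ext he)
    obtain ⟨l, h1, h2⟩ := join_ex hσ p q hpq'
    exact ⟨⟨l, line_real hpq' hp hq h1 h2⟩, ⟨h1, h2⟩, fun m hm => Subtype.ext (uniq hσ hpq' hm.1 hm.2 h1 h2)⟩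
  meet := by
    rintro ⟨l, hl⟩ ⟨m, hm⟩ hlm
    have hlm' : l ≠ m := fun he => hlm (Subtype.ext he)
    obtain ⟨p, h1, h2⟩ := meet_ex hσ l m hlm'
    refine ⟨⟨p, point_real hlm' hl hm h1 h2⟩, ⟨h1, h2⟩, fun q hq => Subtype.ext ?_⟩
    by_contra hne
    exact hlm' (uniq hσ hne hq.1 h1 hq.2 h2)
  quad := ⟨fun i => ⟨qd i, qd_real i⟩, fun i j hij => qd_inj (congrArg Subtype.val hij),
    fun i j k hij hik hjk l hl => qd_lines i j k hij hik hjk l.1 hl⟩

/-- translations, on points -/
def tP (t : V) : Pt → Pt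
  | aff z v => aff (z + t) v
  | dir s => dir s
  | ext j => ext j

/-- translations, on lines -/
def tL (t : V) : Ln → Ln
  | net s b c0 => net s b (c0 + L s t)
  | graph j g => graph j (g + t)
  | inf => inf

theorem L_neg (s : Option ℚ) (x : V) : L s (-x) = -L s x := by
  have := L_sub s 0 x
  rw [L_zero, zero_sub, zero_sub] at this
  exact this

theorem tP_neg (t : V) (p : Pt) : tP (-t) (tP t p) = p := by
  rcases p with ⟨z, v⟩ | s | j <;> simp [tP]

theorem tL_neg (t : V) (l : Ln) : tL (-t) (tL t l) = l := by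
  rcases l with ⟨s, b, c0⟩ | ⟨j, g⟩ | _ <;> simp [tL, L_neg]

/-- translations, as permutations of the points -/
def eP (t : V) : Pt ≃ Pt where
  toFun := tP t
  invFun := tP (-t)
  left_inv := tP_neg t
  right_inv := fun p => by
    have := tP_neg (-t) p
    rwa [neg_neg] at this

/-- translations, as permutations of the lines -/
def eL (t : V) : Ln ≃ Ln where
  toFun := tL t
  invFun := tL (-t)
  left_inv := tL_neg t
  right_inv := fun p => by
    have := tL_neg (-t) p
    rwa [neg_neg] at this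

theorem inc_trans (t : V) (p : Pt) (l : Ln) : Inc σ (tP t p) (tL t l) ↔ Inc σ p l := by
  rcases p with ⟨z, v⟩ | s | j <;> rcases l with ⟨s', b, c0⟩ | ⟨j', g⟩ | _ <;>
    simp [tP, tL, Inc, c_add, ← add_assoc]

theorem trans_elation (t : V) : IsElation (Inc σ) inf (eP t) (eL t) := by
  refine ⟨inc_trans t, ?_, ?_⟩
  · intro p hp
    rcases p with ⟨z, v⟩ | s | j
    · exact hp.elim
    · rfl
    · rfl
  · obtain ⟨s, hs⟩ := exists_L t
    refine ⟨dir s, trivial, ?_⟩
    intro l hl
    rcases l with ⟨s', b, c0⟩ | ⟨j', g⟩ | _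
    · have e1 : s = s' := hl
      subst e1
      show net s b (c0 + L s t) = net s b c0
      rw [hs, add_zero]
    · exact hl.elim
    · rfl

theorem tP_real (t : V) (p : Pt) : p ∈ RP ↔ eP t p ∈ RP := by
  rcases p with ⟨z, v⟩ | s | j <;> exact Iff.rfl

theorem tL_real (t : V) (l : Ln) : l ∈ RL ↔ eL t l ∈ RL := by
  rcases l with ⟨s, b, c0⟩ | ⟨j, g⟩ | _ <;> exact Iff.rfl

theorem inf_real : inf ∈ RL := trivial

theorem sub_elation (t : V) : IsElation (sub (Inc σ) RP RL) ⟨inf, inf_real⟩ ((eP t).subtypeEquiv (tP_real t))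
    ((eL t).subtypeEquiv (tL_real t)) := by
  refine ⟨fun p l => inc_trans t p.1 l.1, ?_, ?_⟩
  · intro p hp
    exact Subtype.ext ((trans_elation t).2.1 p.1 hp)
  · obtain ⟨s, hs⟩ := exists_L t
    refine ⟨⟨dir s, trivial⟩, trivial, ?_⟩
    intro l hl
    apply Subtype.ext
    show tL t l.1 = l.1
    rcases hl' : l.1 with ⟨s', b, c0⟩ | ⟨j', g⟩ | _
    · have e1 : Inc σ (dir s) l.1 := hl
      rw [hl'] at e1
      have e2 : s = s' := e1
      subst e2
      show net s b (c0 + L s t) = net s b c0
      rw [hs, add_zero]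
    · have e1 : Inc σ (dir s) l.1 := hl
      rw [hl'] at e1
      exact e1.elim
    · rfl

theorem isTranslation : IsTranslationPlane (sub (Inc σ) RP RL) ⟨inf, inf_real⟩ := by
  rintro ⟨p, hp⟩ ⟨q, hq⟩ hpi hqi
  rcases p with ⟨z, v⟩ | s | j
  · rcases q with ⟨z', v'⟩ | s' | j'
    · refine ⟨_, _, sub_elation (z' - z), Subtype.ext ?_⟩
      show aff (z + (z' - z)) v = aff z' v'
      have e1 : v = 0 := hp
      have e2 : v' = 0 := hq
      rw [e1, e2]
      congr 1
      abel
    · exact absurd trivial hqi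
    · exact absurd trivial hqi
  · exact absurd trivial hpi
  · exact absurd trivial hpi

/-- every translation of the real plane is a vector translation -/
theorem extend (hσ : Fam σ) (f : RP ≃ RP) (g : RL ≃ RL) (hf : IsElation (sub (Inc σ) RP RL) ⟨inf, inf_real⟩ f g) :
    ∃ t : V, ∀ p : RP, tP t p.1 = (f p).1 := by
  obtain ⟨h1, h2, ⟨c, hcR⟩, hc, h3⟩ := hf
  have h1' : ∀ (p : RP) (l : RL), Inc σ (f p).1 (g l).1 ↔ Inc σ p.1 l.1 := h1
  have hdir : ∀ s, (f ⟨dir s, trivial⟩).1 = dir s := fun s => congrArg Subtype.val (h2 ⟨dir s, trivial⟩ trivial)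
  -- the line at infinity is fixed
  have hW : (g ⟨inf, inf_real⟩).1 = inf := by
    have e1 := (h1' ⟨dir none, trivial⟩ ⟨inf, inf_real⟩).2 trivial
    have e2 := (h1' ⟨dir (some 0), trivial⟩ ⟨inf, inf_real⟩).2 trivial
    rw [hdir] at e1 e2
    exact uniq hσ (p := dir none) (q := dir (some 0)) (by simp) e1 e2 trivial trivial
  -- the images of affine points
  have haff : ∀ z : V, ∃ w : V, (f ⟨aff z 0, rfl⟩).1 = aff w 0 := by
    intro z
    have e1 : ¬ Inc σ (f ⟨aff z 0, rfl⟩).1 inf := by
      rw [← hW]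
      exact fun e => (h1' ⟨aff z 0, rfl⟩ ⟨inf, inf_real⟩).1 e
    have e2 := (f ⟨aff z 0, rfl⟩).2
    rcases hq : (f ⟨aff z 0, rfl⟩).1 with ⟨w, v⟩ | s | j
    · rw [hq] at e2
      have e3 : v = 0 := e2
      exact ⟨w, by rw [e3]⟩
    · rw [hq] at e1
      exact absurd trivial e1
    · rw [hq] at e1
      exact absurd trivial e1
  choose φ hφ using haff
  -- lines of slope `s`
  have hpar : ∀ s z w, L s z = L s w → L s (φ z) = L s (φ w) := by
    intro s z w hzw
    let l : RL := ⟨net s 0 (L s z), rfl⟩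
    have e1 : Inc σ (f ⟨aff z 0, rfl⟩).1 (g l).1 := (h1' ⟨aff z 0, rfl⟩ l).2 ⟨L_zero s, c_zero s z⟩
    have e2 : Inc σ (f ⟨aff w 0, rfl⟩).1 (g l).1 :=
      (h1' ⟨aff w 0, rfl⟩ l).2 ⟨L_zero s, (c_zero s w).trans hzw.symm⟩
    have e3 : Inc σ (f ⟨dir s, trivial⟩).1 (g l).1 := (h1' ⟨dir s, trivial⟩ l).2 rfl
    rw [hφ] at e1 e2
    rw [hdir] at e3
    rcases hm : (g l).1 with ⟨s', b, c0⟩ | ⟨j, g'⟩ | _
    · rw [hm] at e1 e2 e3
      have e4 : s = s' := e3
      subst e4
      have e5 := e1.2.trans e2.2.symm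
      rwa [c_zero, c_zero] at e5
    · rw [hm] at e3
      exact e3.elim
    · rw [hm] at e1
      exact e1.elim
  -- the centre
  obtain ⟨s0, hs0⟩ : ∃ s0, c = dir s0 := by
    rcases c with ⟨w, v⟩ | s | j
    · exact hc.elim
    · exact ⟨s, rfl⟩
    · exact hcR.elim
  subst hs0
  have hcen : ∀ z, L s0 (φ z) = L s0 z := by
    intro z
    let l : RL := ⟨net s0 0 (L s0 z), rfl⟩
    have e0 : g l = l := h3 l rfl
    have e1 : Inc σ (f ⟨aff z 0, rfl⟩).1 (g l).1 := (h1' ⟨aff z 0, rfl⟩ l).2 ⟨L_zero s0, c_zero s0 z⟩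
    rw [e0, hφ] at e1
    have e2 := e1.2
    rwa [c_zero] at e2
  have hstep : ∀ z w s, s ≠ s0 → L s z = L s w → φ z - z = φ w - w := by
    intro z w s hs hzw
    have : φ z - z - (φ w - w) = 0 := by
      refine L_inj hs ?_ ?_
      · rw [L_sub, L_sub, L_sub, hpar s z w hzw, hzw, sub_self]
      · rw [L_sub, L_sub, L_sub, hcen, hcen]
        ring
    exact sub_eq_zero.1 this
  have hall : ∀ z, φ z - z = φ 0 - 0 := by
    intro z
    -- a third point
    obtain ⟨s1, hs1⟩ : ∃ s1 : Option ℚ, s1 ∉ ({s0} : Finset (Option ℚ)) := Infinite.exists_notMem_finset _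
    obtain ⟨s2, hs2⟩ : ∃ s2 : Option ℚ, s2 ∉ ({s0, s1} : Finset (Option ℚ)) := Infinite.exists_notMem_finset _
    simp only [Finset.mem_singleton] at hs1
    simp only [Finset.mem_insert, Finset.mem_singleton, not_or] at hs2
    obtain ⟨y, hy1, hy2⟩ := L_surj (Ne.symm hs2.2) (L s1 z) (L s2 0)
    rw [← hstep y z s1 hs1 hy1, hstep y 0 s2 hs2.1 hy2]
  refine ⟨φ 0, ?_⟩
  rintro ⟨p, hp⟩
  rcases p with ⟨z, v⟩ | s | j
  · have e1 : v = 0 := hp
    subst e1
    rw [hφ z]
    show aff (z + φ 0) 0 = aff (φ z) 0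
    have e2 := hall z
    rw [sub_zero] at e2
    rw [← e2]
    congr 1
    abel
  · exact (hdir s).symm
  · exact hp.elim

theorem isSemi (hσ : Fam σ) : IsSemiTranslation (Inc σ) inf RP RL inf_real where
  plane := isPlane hσ
  subplane := isPlane_sub hσ
  point_mem := by
    intro p
    rcases p with ⟨z, v⟩ | s | j
    · obtain ⟨s, hs⟩ := exists_L v
      exact ⟨net s 0 (c s v z), rfl, hs, rfl⟩
    · exact ⟨inf, trivial, trivial⟩
    · exact ⟨inf, trivial, trivial⟩
  line_mem := by
    intro l
    rcases l with ⟨s, b, c0⟩ | ⟨j, g⟩ | _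
    · exact ⟨dir s, trivial, rfl⟩
    · exact ⟨aff (σ j 0 + g) 0, rfl, rfl⟩
    · exact ⟨dir none, trivial, trivial⟩
  translation := isTranslation
  extend := by
    intro f g hf
    obtain ⟨t, ht⟩ := extend hσ f g hf
    exact ⟨eP t, eL t, trans_elation t, ht⟩

/-- the coordinates -/
def pt (x y : V) : Pt := aff (x.1, y.1) (x.2, y.2)

/-- the relation that defines the ternary operation -/
def Rel (σ : ℕ → V → V) (x a b y : V) : Prop :=
  ∃ m c l, Inc σ (pt 0 0) m ∧ Inc σ (pt (1, 0) a) m ∧ Inc σ c m ∧ Inc σ c inf ∧ Inc σ c l ∧ Inc σ (pt 0 b) l ∧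
    Inc σ (pt x y) l

theorem pt_inj {x y x' y' : V} (he : pt x y = pt x' y') : x = x' ∧ y = y' := by
  simp only [pt, aff.injEq, Prod.mk.injEq] at he
  exact ⟨Prod.ext he.1.1 he.2.1, Prod.ext he.1.2 he.2.2⟩

/-- the vertical lines -/
theorem pt_vert (x y : V) : Inc σ (pt x y) (net none x.2 x.1) := ⟨rfl, by simp [c, h, L]⟩

theorem vert_aff {z v : V} {b c0 : ℚ} (he : Inc σ (aff z v) (net none b c0)) : v.1 = b ∧ z.1 = c0 := by
  obtain ⟨e1, e2⟩ := he
  simp only [c, h, L] at e1 e2
  exact ⟨e1, by linarith⟩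

theorem not_vert {a : V} {m : Ln} (h1 : Inc σ (pt 0 0) m) (h2 : Inc σ (pt (1, 0) a) m) (h3 : Inc σ (dir none) m) :
    False := by
  rcases m with ⟨s, b, c0⟩ | ⟨j, g⟩ | _
  · have e1 : none = s := h3
    subst e1
    have e2 := (vert_aff h1).2
    have e3 := (vert_aff h2).2
    rw [← e3] at e2
    simp at e2
  · exact h3
  · exact h1

theorem rel_ex (hσ : Fam σ) (x a b : V) : ∃ y, Rel σ x a b y := by
  have hne : pt 0 0 ≠ pt (1, 0) a := by
    intro he
    have := congrArg Prod.fst (pt_inj he).1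
    simp at this
  obtain ⟨m, hm1, hm2⟩ := join_ex hσ _ _ hne
  have hm : m ≠ inf := by rintro rfl; exact hm1
  obtain ⟨c, hc1, hc2⟩ := meet_ex hσ m inf hm
  have hne2 : pt 0 b ≠ c := by rintro rfl; exact hc2
  obtain ⟨l, hl1, hl2⟩ := join_ex hσ _ _ hne2
  have hcv : c ≠ dir none := by rintro rfl; exact not_vert hm1 hm2 hc1
  have hlv : l ≠ net none x.2 x.1 := by
    rintro rfl
    rcases c with ⟨z, v⟩ | s | j
    · exact hc2
    · exact hcv (congrArg dir (show s = none from hl2))
    · exact hl2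
  obtain ⟨p, hp1, hp2⟩ := meet_ex hσ l _ hlv
  rcases p with ⟨z, v⟩ | s | j
  · have e1 := vert_aff hp2
    refine ⟨(z.2, v.2), m, c, l, hm1, hm2, hc1, hc2, hl2, hl1, ?_⟩
    have e2 : pt x (z.2, v.2) = aff z v := by
      unfold pt
      congr 1
      · exact Prod.ext e1.2.symm rfl
      · exact Prod.ext e1.1.symm rfl
    rwa [e2]
  · exfalso
    have e1 : s = none := hp2
    subst e1
    have hl : l ≠ inf := by rintro rfl; exact hl1
    exact hl (uniq hσ hcv hl2 hp1 hc2 trivial)
  · exact hp2.elim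

theorem rel_uniq (hσ : Fam σ) {x a b y y' : V} (h1 : Rel σ x a b y) (h2 : Rel σ x a b y') : y = y' := by
  obtain ⟨m, c, l, a1, a2, a3, a4, a5, a6, a7⟩ := h1
  obtain ⟨m', c', l', b1, b2, b3, b4, b5, b6, b7⟩ := h2
  have hne : pt 0 0 ≠ pt (1, 0) a := by
    intro he
    have := congrArg Prod.fst (pt_inj he).1
    simp at this
  have e1 : m = m' := uniq hσ hne a1 a2 b1 b2
  subst e1
  have hm : m ≠ inf := by rintro rfl; exact a1
  have e2 : c = c' := by
    by_contra hcc
    exact hm (uniq hσ hcc a3 b3 a4 b4)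
  subst e2
  have hne2 : pt 0 b ≠ c := by rintro rfl; exact a4
  have e3 : l = l' := uniq hσ hne2 a6 a5 b6 b5
  subst e3
  by_contra hy
  have hne3 : pt x y ≠ pt x y' := fun he => hy (pt_inj he).2
  have e4 : l = net none x.2 x.1 := uniq hσ hne3 a7 b7 (pt_vert x y) (pt_vert x y')
  subst e4
  rcases c with ⟨z, v⟩ | s | j
  · exact a4
  · have e5 : s = none := a5
    subst e5
    exact not_vert a1 a2 a3
  · exact a5

theorem isHall (hσ : Fam σ) (F : V → V → V → V) (hF : ∀ x a b, Rel σ x a b (F x a b)) :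
    IsHall (Inc σ) inf (qd 0) (qd 1) (qd 2) (qd 3) V 0 (1, 0) pt F where
  inj := fun x y x' y' he => pt_inj he
  range := by
    intro p
    rcases p with ⟨z, v⟩ | s | j
    · exact ⟨fun _ h0 => h0, fun _ => ⟨(z.1, v.1), (z.2, v.2), rfl⟩⟩
    · refine ⟨?_, fun h0 => absurd trivial h0⟩
      rintro ⟨x, y, he⟩
      simp [pt] at he
    · refine ⟨?_, fun h0 => absurd trivial h0⟩
      rintro ⟨x, y, he⟩
      simp [pt] at he
  origin := rfl
  unit := rfl
  diagonal := by
    intro l h1 h2 t
    have e1 : Inc σ (qd 0) (net (some 1) 0 0) := by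
      show L (some 1) 0 = 0 ∧ c (some 1) 0 0 = 0
      simp [c, h, L]
    have e2 : Inc σ (qd 1) (net (some 1) 0 0) := by
      show L (some 1) 0 = 0 ∧ c (some 1) 0 (1, 1) = 0
      simp [c, h, L]
    have e3 : l = net (some 1) 0 0 := uniq hσ (fun he => by simpa using qd_inj he) h1 h2 e1 e2
    rw [e3]
    show L (some 1) (t.2, t.2) = 0 ∧ c (some 1) (t.2, t.2) (t.1, t.1) = 0
    simp [c, h, L]
  vertical := by
    intro l h1 x y y' h2
    rcases l with ⟨s, b, c0⟩ | ⟨j, g⟩ | _
    · have e1 : none = s := h1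
      subst e1
      obtain ⟨e2, e3⟩ := vert_aff h2
      simp only at e2 e3
      subst e2 e3
      exact pt_vert x y'
    · exact h1.elim
    · exact h2.elim
  horizontal := by
    intro l h1 x x' y h2
    rcases l with ⟨s, b, c0⟩ | ⟨j, g⟩ | _
    · have e1 : some 0 = s := h1
      subst e1
      obtain ⟨e2, e3⟩ := h2
      refine ⟨?_, ?_⟩
      · rw [← e2]
        simp [L]
      · rw [← e3]
        simp [c, h, L]
    · exact h1.elim
    · exact h2.elim
  op := by
    intro x a b y
    refine ⟨?_, fun h1 => rel_uniq hσ (hF x a b) h1⟩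
    rintro rfl
    exact hF x a b

/-- the values for real slopes -/
theorem rel_real (s : ℚ) (x y b : V) (h1 : y.2 = s * x.2 + b.2)
    (h2 : y.1 = s * x.1 + s * (s - 1) * b.2 * x.2 + b.1) : Rel σ x (s, 0) b y := by
  refine ⟨net (some s) 0 0, dir (some s), net (some s) b.2 b.1, ?_, ?_, rfl, trivial, rfl, ?_, ?_⟩
  · show L (some s) (0, 0) = 0 ∧ c (some s) (0, 0) (0, 0) = 0
    simp [c, h, L]
  · show L (some s) (0, 0) = 0 ∧ c (some s) (0, 0) (1, s) = 0
    simp [c, h, L]
  · show L (some s) (0, b.2) = b.2 ∧ c (some s) (0, b.2) (0, b.1) = b.1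
    simp [c, h, L]
  · show L (some s) (x.2, y.2) = b.2 ∧ c (some s) (x.2, y.2) (x.1, y.1) = b.1
    simp only [c, h, L]
    rw [h1, h2]
    constructor <;> ring

end proofs

/-- **Ternary fields of semi-translation planes need not be linear over the Baer subplane.** There are a projective plane
`(P, L, I)`, a line `W` and a Baer subplane with points `A` and lines `B` containing `W`, such that the affine plane obtained
by deleting `W` is a semi-translation plane with respect to this Baer subplane, a quadrangle `o, e, u, v` of the subplane with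
`u`, `v` on `W`, and Hall coordinates with respect to `o, e, u, v` with ternary operation `F x a b = x · a ∘ b`, such that
`x · s ∘ y ≠ x s + y` for some `x`, `y` and some `s` in the coordinate set of the subplane; here `x s = F x s 0` and
`a + b = F a 1 b`. -/
theorem result : ∃ (P L : Type) (I : P → L → Prop) (W : L) (A : Set P) (B : Set L) (hW : W ∈ B),
    IsSemiTranslation I W A B hW ∧
    ∃ o ∈ A, ∃ e ∈ A, ∃ u ∈ A, ∃ v ∈ A, Quadrangle I ![o, e, u, v] ∧ I u W ∧ I v W ∧
      ∃ (T : Type) (zero one : T) (pt : T → T → P) (F : T → T → T → T), IsHall I W o e u v T zero one pt F ∧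
        ∃ x y s, pt s s ∈ A ∧ F x s y ≠ F (F x s zero) one y := by
  obtain ⟨σ, a1, a2, a3, a4, a5⟩ := Pool.Agent.Q232.ST.exists_family
  have hσ : Fam σ := ⟨a1, a2, a3, a4, a5⟩
  choose F hF using rel_ex hσ
  have hH := isHall hσ F hF
  refine ⟨Pt, Ln, Inc σ, Ln.inf, RP, RL, inf_real, isSemi hσ, qd 0, qd_real 0, qd 1, qd_real 1, qd 2, qd_real 2, qd 3,
    qd_real 3, ⟨qd_inj, qd_lines⟩, trivial, trivial, _, _, _, _, F, hH, (0, 1), (0, 1), (2, 0), rfl, ?_⟩
  have e1 : F (0, 1) (2, 0) (0, 1) = (2, 3) :=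
    rel_uniq hσ (hF _ _ _) (rel_real 2 (0, 1) (2, 3) (0, 1) (by norm_num) (by norm_num))
  have e2 : F (0, 1) (2, 0) 0 = (0, 2) :=
    rel_uniq hσ (hF _ _ _) (rel_real 2 (0, 1) (0, 2) 0 (by norm_num) (by norm_num))
  have e3 : F (0, 2) (1, 0) (0, 1) = (0, 3) :=
    rel_uniq hσ (hF _ _ _) (rel_real 1 (0, 2) (0, 3) (0, 1) (by norm_num) (by norm_num))
  rw [e1, e2, e3]
  intro he
  have := congrArg Prod.fst he
  norm_num at this

end Pool.Agent.Results.MP_da03c4_co.NotLinear
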